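import Pool.Agent.W475.BH.Stm

set_option autoImplicit false

/-! Local integrability of `log ‖f‖` (lemmas copied from `Pool.Agent.Helper758.LS_A3`). -/

namespace Pool.Agent.W412.BH
open MeasureTheory Filter Topology Set Complex
open Pool.Agent.W475.BH

theorem aux_intOn_log (r : ℝ) : IntegrableOn (fun z : ℂ => Real.log ‖z‖) (Metric.ball 0 r) volume := by
  rw [integrableOn_fun_norm_addHaar (μ := (volume : Measure ℂ)) (f := Real.log) (r := r)]
  rw [Complex.finrank_real_complex]
  have : (fun y : ℝ => y ^ (2 - 1) • Real.log y) = fun y => y * Real.log y := by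
    funext y; simp
  rw [this]
  apply IntegrableOn.mono_set (t := Icc 0 r) _ Ioo_subset_Icc_self
  exact (Real.continuous_mul_log.continuousOn).integrableOn_Icc

theorem aux_locint_log_sub (a : ℂ) : LocallyIntegrable (fun z : ℂ => Real.log ‖z - a‖) volume := by
  intro x
  refine ⟨Metric.ball a (‖x - a‖ + 1), Metric.isOpen_ball.mem_nhds ?_, ?_⟩
  · rw [Metric.mem_ball, dist_eq_norm]; linarith
  · have h1 := aux_intOn_log (‖x - a‖ + 1)
    have h2 : MeasurePreserving (fun z : ℂ => z - a) volume volume := measurePreserving_sub_right volume a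
    have h3 := (h2.integrableOn_comp_preimage (MeasurableEquiv.subRight a).measurableEmbedding (f := fun z : ℂ => Real.log ‖z‖) (s := Metric.ball 0 (‖x - a‖ + 1))).mpr h1
    have h4 : (fun z : ℂ => z - a) ⁻¹' (Metric.ball 0 (‖x - a‖ + 1)) = Metric.ball a (‖x - a‖ + 1) := by
      ext z; simp [dist_eq_norm]
    rw [h4] at h3
    exact h3

theorem aux_locint (F : ℂ → ℂ) (hF : Differentiable ℂ F) (hne : ∃ z, F z ≠ 0) :
    LocallyIntegrable (fun z : ℂ => Real.log ‖F z‖) volume := by
  intro a
  have hA : AnalyticAt ℂ F a := hF.analyticAt a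
  have hnz : ¬ ∀ᶠ z in 𝓝 a, F z = 0 := by
    intro h0
    obtain ⟨z, hz⟩ := hne
    have hAn : AnalyticOnNhd ℂ F Set.univ := fun z _ => hF.analyticAt z
    have := hAn.eq_of_eventuallyEq (g := fun _ => 0) (fun z _ => analyticAt_const) (z₀ := a) h0
    exact hz (by rw [this])
  obtain ⟨n, g, hg, hga, hfg⟩ := (hA.exists_eventuallyEq_pow_smul_nonzero_iff).mpr hnz
  -- neighbourhood
  have hev : ∀ᶠ z in 𝓝 a, AnalyticAt ℂ g z ∧ g z ≠ 0 := by
    have := hg.continuousAt.eventually_ne hga
    exact (hg.eventually_analyticAt).and this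
  have hboth := hev.and hfg
  obtain ⟨r, hr, hball⟩ := Metric.eventually_nhds_iff_ball.mp hboth
  refine ⟨Metric.closedBall a (r/2), Metric.closedBall_mem_nhds a (by positivity), ?_⟩
  have hsub : Metric.closedBall a (r/2) ⊆ Metric.ball a r := Metric.closedBall_subset_ball (by linarith)
  have hK : IsCompact (Metric.closedBall a (r/2)) := isCompact_closedBall _ _
  have h1 : IntegrableOn (fun z : ℂ => Real.log ‖z - a‖) (Metric.closedBall a (r/2)) volume :=
    (aux_locint_log_sub a).integrableOn_isCompact hK
  have h2 : IntegrableOn (fun z : ℂ => Real.log ‖g z‖) (Metric.closedBall a (r/2)) volume := by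
    apply ContinuousOn.integrableOn_compact hK
    apply ContinuousOn.log
    · exact ContinuousOn.norm (fun z hz => (hball z (hsub hz)).1.1.continuousAt.continuousWithinAt)
    · intro z hz
      exact norm_ne_zero_iff.mpr (hball z (hsub hz)).1.2
  have h3 := (h1.const_mul (n : ℝ)).add h2
  apply Integrable.congr h3
  have hae : ∀ᵐ z ∂(volume.restrict (Metric.closedBall a (r/2))), z ≠ a := by
    apply ae_restrict_of_ae
    have : volume ({a} : Set ℂ) = 0 := by simp
    exact measure_eq_zero_iff_ae_notMem.mp this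
  filter_upwards [hae, ae_restrict_mem Metric.isClosed_closedBall.measurableSet] with z hz hzm
  have := (hball z (hsub hzm)).2
  simp only [Pi.add_apply]
  rw [this, norm_smul, norm_pow, Real.log_mul, Real.log_pow]
  · exact pow_ne_zero _ (norm_ne_zero_iff.mpr (sub_ne_zero.mpr hz))
  · exact norm_ne_zero_iff.mpr (hball z (hsub hzm)).1.2

theorem ca1 : S_CA1 := fun f hf hne => aux_locint f hf hne

end Pool.Agent.W412.BH
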